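import Mathlib
import Pool.Agent.H89.FM.Targets2

/-!
# PSB: the decay of the function `Psr`
-/

set_option autoImplicit false

open MeasureTheory Set Filter
open scoped Real
open Pool.Agent.H31.CN Pool.Agent.H89.FM

namespace Pool.Agent.H83.FM

theorem qz_nonneg (x y : ℝ) (hy : 0 < y) (v : ℤ × ℤ) : 0 ≤ qz x y v := by
  unfold qz
  positivity

theorem qz_lower (x y : ℝ) (hy : 0 < y) (v : ℤ × ℤ) (hv : v ≠ 0) :
    min (1 / (2 * y)) (y / 2) ≤ qz x y v := by
  unfold qz
  by_cases h2 : v.2 = 0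
  · have h1 : v.1 ≠ 0 := by
      intro h1
      exact hv (Prod.ext h1 h2)
    have h3 : (1 : ℝ) ≤ (v.1 : ℝ) ^ 2 := by
      have : (1 : ℤ) ≤ v.1 ^ 2 := by
        have := sq_nonneg v.1
        have h0 : v.1 ^ 2 ≠ 0 := pow_ne_zero 2 h1
        omega
      exact_mod_cast this
    refine le_trans (min_le_left _ _) ?_
    rw [h2]
    push_cast
    apply div_le_div_of_nonneg_right _ (by positivity)
    nlinarith
  · have h3 : (1 : ℝ) ≤ (v.2 : ℝ) ^ 2 := by
      have : (1 : ℤ) ≤ v.2 ^ 2 := by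
        have := sq_nonneg v.2
        have h0 : v.2 ^ 2 ≠ 0 := pow_ne_zero 2 h2
        omega
      exact_mod_cast this
    refine le_trans (min_le_right _ _) ?_
    rw [le_div_iff₀ (by positivity)]
    have h4 : y / 2 * (2 * y) = y ^ 2 := by ring
    rw [h4, mul_pow]
    have h5 : 0 ≤ ((v.1 : ℝ) + v.2 * x) ^ 2 := sq_nonneg _
    have h6 : 0 ≤ ((v.2 : ℝ) ^ 2 - 1) * y ^ 2 := mul_nonneg (by linarith) (sq_nonneg _)
    nlinarith

theorem phc_bound (K : ℝ) (hK : 0 < K) (w : ℂ) (hw : ‖w‖ ≤ K * w.re) (r : ℝ) (hr : 0 ≤ r) :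
    ‖phc (w * (r : ℂ))‖ ≤ (8 * K ^ 2 + 4 * K) * Real.exp (-(π / K * (‖w‖ * r))) := by
  have hpi := Real.pi_pos
  unfold phc
  rw [norm_mul, Complex.norm_exp]
  set z := ‖w‖ * r with hz
  have hz0 : 0 ≤ z := mul_nonneg (norm_nonneg _) hr
  have hwr : ‖w * (r : ℂ)‖ = z := by
    rw [norm_mul, Complex.norm_real, Real.norm_of_nonneg hr]
  have h1 : ‖4 * (π : ℂ) ^ 2 * (w * (r : ℂ)) ^ 2 - 4 * (π : ℂ) * (w * (r : ℂ))‖ ≤
      4 * π ^ 2 * z ^ 2 + 4 * π * z := by
    refine le_trans (norm_sub_le _ _) ?_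
    rw [norm_mul, norm_mul, norm_mul, norm_mul, norm_pow, norm_pow, hwr, Complex.norm_real,
      Real.norm_of_nonneg hpi.le]
    simp
  have h2 : (-(2 * (π : ℂ) * (w * (r : ℂ)))).re = -(2 * π * (w.re * r)) := by
    simp [Complex.mul_re, Complex.mul_im]
  rw [h2]
  have h3 : Real.exp (-(2 * π * (w.re * r))) ≤ Real.exp (-(2 * (π / K * z))) := by
    apply Real.exp_le_exp.mpr
    have h4 : z ≤ K * (w.re * r) := by
      calc z = ‖w‖ * r := rfl
        _ ≤ K * w.re * r := mul_le_mul_of_nonneg_right hw hr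
        _ = K * (w.re * r) := by ring
    have h5 : π / K * z ≤ π * (w.re * r) := by
      rw [div_mul_eq_mul_div, div_le_iff₀ hK]
      nlinarith
    linarith
  set t := π / K * z with ht
  have ht0 : 0 ≤ t := by positivity
  have hzt : π * z = K * t := by
    rw [ht]
    field_simp
  have he1 : t ≤ Real.exp t := by linarith [Real.add_one_le_exp t]
  have he2 : t ^ 2 ≤ 2 * Real.exp t := by
    have := Real.quadratic_le_exp_of_nonneg ht0
    linarith
  have h6 : 4 * π ^ 2 * z ^ 2 + 4 * π * z ≤ (8 * K ^ 2 + 4 * K) * Real.exp t := by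
    have e1 : 4 * π ^ 2 * z ^ 2 = 4 * K ^ 2 * t ^ 2 := by
      calc 4 * π ^ 2 * z ^ 2 = 4 * (π * z) ^ 2 := by ring
        _ = 4 * (K * t) ^ 2 := by rw [hzt]
        _ = 4 * K ^ 2 * t ^ 2 := by ring
    have e2 : 4 * π * z = 4 * K * t := by
      calc 4 * π * z = 4 * (π * z) := by ring
        _ = 4 * (K * t) := by rw [hzt]
        _ = 4 * K * t := by ring
    rw [e1, e2]
    have k1 : 4 * K ^ 2 * t ^ 2 ≤ 4 * K ^ 2 * (2 * Real.exp t) :=
      mul_le_mul_of_nonneg_left he2 (by positivity)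
    have k2 : 4 * K * t ≤ 4 * K * Real.exp t := mul_le_mul_of_nonneg_left he1 (by positivity)
    linarith
  calc ‖4 * (π : ℂ) ^ 2 * (w * (r : ℂ)) ^ 2 - 4 * (π : ℂ) * (w * (r : ℂ))‖ *
        Real.exp (-(2 * π * (w.re * r)))
      ≤ ((8 * K ^ 2 + 4 * K) * Real.exp t) * Real.exp (-(2 * t)) := by
        apply mul_le_mul (le_trans h1 h6) h3 (Real.exp_pos _).le
        positivity
    _ = (8 * K ^ 2 + 4 * K) * Real.exp (-t) := by
        rw [mul_assoc, ← Real.exp_add]
        congr 2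
        ring

theorem pf_PSB (hTHL : T_THL) (_hFLS : T_FLS) : T_PSB := by
  intro n L x y K hn hL hy hK
  have hpi := Real.pi_pos
  have hn0 : (0 : ℝ) < n := by exact_mod_cast hn
  set c0 := min (1 / (2 * y)) (y / 2) / n with hc0
  have hc0p : 0 < c0 := div_pos (lt_min (by positivity) (by positivity)) hn0
  set G : ℤ × ℤ → ℝ := fun v => Real.exp (-(2 * π * (1 / (4 * K)) * (qz x y v / n))) with hG
  have hGs : Summable G := (hTHL n L x y (1 / (4 * K)) hn hL hy (by positivity)).1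
  have hG0 : ∀ v, 0 ≤ G v := fun v => (Real.exp_pos _).le
  refine ⟨(8 * K ^ 2 + 4 * K) * ∑' v, G v, π / (2 * K) * c0,
    mul_nonneg (by positivity) (tsum_nonneg hG0), by positivity, ?_⟩
  intro w hw1 hwK
  have hb : ∀ v, ‖pst n L x y w v‖ ≤
      (8 * K ^ 2 + 4 * K) * Real.exp (-(π / (2 * K) * c0 * ‖w‖)) * G v := by
    intro v
    unfold pst
    split_ifs with h
    · have hr0 : 0 ≤ qz x y v / n := div_nonneg (qz_nonneg x y hy v) hn0.le
      have hrc : c0 ≤ qz x y v / n := by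
        rw [hc0]
        exact div_le_div_of_nonneg_right (qz_lower x y hy v h.2) hn0.le
      refine le_trans (phc_bound K hK w hwK _ hr0) ?_
      rw [mul_assoc]
      apply mul_le_mul_of_nonneg_left _ (by positivity)
      simp only [hG]
      rw [← Real.exp_add]
      apply Real.exp_le_exp.mpr
      set r := qz x y v / n with hr
      have e1 : π / K * (‖w‖ * r) = π / (2 * K) * (r * ‖w‖) + π / (2 * K) * (‖w‖ * r) := by
        field_simp
        ring
      have e2 : 2 * π * (1 / (4 * K)) * r = π / (2 * K) * r := by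
        field_simp
        ring
      rw [e1, e2]
      have hq : 0 < π / (2 * K) := by positivity
      have k1 : π / (2 * K) * c0 * ‖w‖ ≤ π / (2 * K) * (r * ‖w‖) := by
        rw [mul_assoc]
        apply mul_le_mul_of_nonneg_left _ hq.le
        exact mul_le_mul_of_nonneg_right hrc (norm_nonneg _)
      have k2 : π / (2 * K) * r ≤ π / (2 * K) * (‖w‖ * r) := by
        apply mul_le_mul_of_nonneg_left _ hq.le
        nlinarith
      linarith
    · rw [norm_zero]
      exact mul_nonneg (mul_nonneg (by positivity) (Real.exp_pos _).le) (hG0 v)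
  have hs : Summable (fun v => ‖pst n L x y w v‖) :=
    Summable.of_nonneg_of_le (fun v => norm_nonneg _) hb (hGs.mul_left _)
  refine ⟨hs, ?_⟩
  calc ∑' v : ℤ × ℤ, ‖pst n L x y w v‖
      ≤ ∑' v, (8 * K ^ 2 + 4 * K) * Real.exp (-(π / (2 * K) * c0 * ‖w‖)) * G v :=
        hs.tsum_le_tsum hb (hGs.mul_left _)
    _ = (8 * K ^ 2 + 4 * K) * (∑' v, G v) * Real.exp (-(π / (2 * K) * c0 * ‖w‖)) := by
        rw [tsum_mul_left]
        ring

end Pool.Agent.H83.FM
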