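import Mathlib
import Pool.Agent.H61.FM.Targets

/-!
# MOT: the second moment with partial sums of any length
-/

set_option autoImplicit false

open MeasureTheory Set Filter NumberField
open scoped Real nonZeroDivisors
open Pool.Agent.H31.CN Pool.Agent.H89.FM Pool.Agent.H61.FM

namespace Pool.Agent.H83.FM.MOTX

/-- the exponential beats the powers -/
theorem exp_small (δ c T X x : ℝ) (hδ : 0 < δ) (hδ1 : δ ≤ 1) (hc : 0 < c) (hT : 1 ≤ T)
    (hX : 1 ≤ X) (hx : 1 ≤ x) (hxX : X ^ ((1 + δ) / 2) < x) (B : ℕ) (hB : 36 / δ ≤ B) :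
    X ≤ x ^ 2 ∧ x ^ 18 * Real.exp (-(c * x / (Real.sqrt X * T))) ≤
      (Nat.factorial B : ℝ) / c ^ B * T ^ B := by
  have hx0 : 0 < x := by linarith
  have hX0 : 0 < X := by linarith
  have hT0 : 0 < T := by linarith
  have h1 : Real.sqrt X ≤ x ^ (1 / (1 + δ)) := by
    have e1 : Real.sqrt X = (X ^ ((1 + δ) / 2)) ^ (1 / (1 + δ)) := by
      rw [← Real.rpow_mul hX0.le, Real.sqrt_eq_rpow]
      congr 1
      field_simp
    rw [e1]
    exact Real.rpow_le_rpow (Real.rpow_nonneg hX0.le _) hxX.le (by positivity)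
  have h2 : Real.sqrt X ≤ x := by
    refine le_trans h1 ?_
    calc x ^ (1 / (1 + δ)) ≤ x ^ (1 : ℝ) := by
          apply Real.rpow_le_rpow_of_exponent_le hx
          rw [div_le_one (by linarith)]
          linarith
      _ = x := Real.rpow_one x
  have hXx : X ≤ x ^ 2 := by
    calc X = Real.sqrt X ^ 2 := (Real.sq_sqrt hX0.le).symm
      _ ≤ x ^ 2 := by gcongr
  refine ⟨hXx, ?_⟩
  have hs0 : 0 < Real.sqrt X := Real.sqrt_pos.mpr hX0
  have h3 : x ^ (δ / 2) ≤ x / Real.sqrt X := by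
    rw [le_div_iff₀ hs0]
    calc x ^ (δ / 2) * Real.sqrt X ≤ x ^ (δ / 2) * x ^ (1 / (1 + δ)) := by gcongr
      _ = x ^ (δ / 2 + 1 / (1 + δ)) := (Real.rpow_add hx0 _ _).symm
      _ ≤ x ^ (1 : ℝ) := by
          apply Real.rpow_le_rpow_of_exponent_le hx
          have h4 : δ / 2 ≤ δ / (1 + δ) := by
            apply div_le_div_of_nonneg_left hδ.le (by linarith) (by linarith)
          have h5 : δ / (1 + δ) + 1 / (1 + δ) = 1 := by
            rw [← add_div, add_comm, div_self (by linarith)]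
          linarith
      _ = x := Real.rpow_one x
  set y := c * x ^ (δ / 2) / T with hy
  have hxd : 0 < x ^ (δ / 2) := Real.rpow_pos_of_pos hx0 _
  have hy0 : 0 < y := by positivity
  have h6 : y ≤ c * x / (Real.sqrt X * T) := by
    rw [hy]
    have e2 : c * x / (Real.sqrt X * T) = c * (x / Real.sqrt X) / T := by
      field_simp
    rw [e2]
    gcongr
  have h7 : Real.exp (-(c * x / (Real.sqrt X * T))) ≤ (Nat.factorial B : ℝ) / y ^ B := by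
    have h8 : y ^ B / (Nat.factorial B : ℝ) ≤ Real.exp y := Real.pow_div_factorial_le_exp y hy0.le B
    have hf : (0 : ℝ) < (Nat.factorial B : ℝ) := by exact_mod_cast Nat.factorial_pos B
    have h9 : y ^ B ≤ Real.exp y * (Nat.factorial B : ℝ) := by
      rwa [div_le_iff₀ hf] at h8
    calc Real.exp (-(c * x / (Real.sqrt X * T))) ≤ Real.exp (-y) :=
          Real.exp_le_exp.mpr (by linarith)
      _ = 1 / Real.exp y := by rw [Real.exp_neg, one_div]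
      _ ≤ (Nat.factorial B : ℝ) / y ^ B := by
          rw [div_le_div_iff₀ (Real.exp_pos y) (by positivity)]
          linarith
  have h10 : x ^ 18 ≤ (x ^ (δ / 2)) ^ B := by
    rw [← Real.rpow_natCast (x ^ (δ / 2)) B, ← Real.rpow_mul hx0.le,
      ← Real.rpow_natCast x 18]
    apply Real.rpow_le_rpow_of_exponent_le hx
    have : 36 ≤ δ * B := by
      rw [div_le_iff₀ hδ] at hB
      linarith
    push_cast
    linarith
  have h11 : y ^ B = c ^ B * (x ^ (δ / 2)) ^ B / T ^ B := by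
    rw [hy, div_pow, mul_pow]
  have hf : (0 : ℝ) < (Nat.factorial B : ℝ) := by exact_mod_cast Nat.factorial_pos B
  calc x ^ 18 * Real.exp (-(c * x / (Real.sqrt X * T)))
      ≤ (x ^ (δ / 2)) ^ B * ((Nat.factorial B : ℝ) / y ^ B) := by
        apply mul_le_mul h10 h7 (Real.exp_pos _).le (by positivity)
    _ = (Nat.factorial B : ℝ) / c ^ B * T ^ B := by
        rw [h11]
        have hne : (x ^ (δ / 2)) ^ B ≠ 0 := (pow_pos hxd B).ne'
        field_simp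

/-- the trivial bound for the sum -/
theorem triv (C2 C3 C4 : ℝ) (k3 : ℕ) (hC2 : 0 < C2) (hC3 : 0 < C3) (hC4 : 0 < C4)
    (h2 : ∀ (K : Type) [Field K] [NumberField K] (D : ℕ), IQ K D →
      ∀ (ψ : CC K), Measurable (Sp ψ) ∧ ∀ x : ℝ, 1 ≤ x → ‖Sp ψ x‖ ≤ C2 * x ^ 2)
    (h3 : ∀ (K : Type) [Field K] [NumberField K] (D : ℕ),
      IQ K D → ∀ (ψ : CC K) (F : ℂ → ℂ), IsLf K ψ F → ∀ s : ℂ,
      |s.re - 1 / 2| ≤ 1 / 8 → ‖F s‖ ≤ C3 * (1 + |s.im|) ^ k3 * (D : ℝ) ^ 2)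
    (h4 : ∀ (K : Type) [Field K] [NumberField K] (D : ℕ), IQ K D →
      (Fintype.card (ClassGroup (𝓞 K)) : ℝ) ≤ C4 * (D : ℝ) ^ (1 / 2 + (1 : ℝ)) ∧
      (Fintype.card (CC K) : ℝ) ≤ C4 * (D : ℝ) ^ (1 / 2 + (1 : ℝ)))
    (s : ℂ) (hs : |s.re - 1 / 2| ≤ 1 / 8) (X x : ℝ) (K : ℕ → Type) [∀ D, Field (K D)]
    [∀ D, NumberField (K D)] (S : Finset ℕ) (F : ∀ D, CC (K D) → ℂ → ℂ) (hX : 1 ≤ X)
    (hx : 1 ≤ x) (hF : Fml K S F (X / 4) X) :
    ∑ D ∈ S, ∑ ψ : CC (K D), ‖Sp ψ x‖ ^ 2 * ‖F D ψ s‖ ^ 2 ≤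
      C4 * C2 ^ 2 * C3 ^ 2 * (1 + |s.im|) ^ (2 * k3) * X ^ 7 * x ^ 4 := by
  have hX0 : 0 < X := by linarith
  have hx0 : 0 < x := by linarith
  set T := 1 + |s.im| with hT
  have hT1 : 1 ≤ T := by
    have := abs_nonneg s.im
    linarith
  have hcard : (S.card : ℝ) ≤ X := by
    have hsub : S ⊆ Finset.Icc 1 ⌊X⌋₊ := by
      intro D hD
      rw [Finset.mem_Icc]
      exact ⟨(hF D hD).2.2.1.pos, Nat.le_floor (hF D hD).2.1⟩
    have hc := Finset.card_le_card hsub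
    rw [Nat.card_Icc] at hc
    have hc2 : S.card ≤ ⌊X⌋₊ := by omega
    calc (S.card : ℝ) ≤ (⌊X⌋₊ : ℝ) := by exact_mod_cast hc2
      _ ≤ X := Nat.floor_le hX0.le
  have hterm : ∀ D ∈ S, ∑ ψ : CC (K D), ‖Sp ψ x‖ ^ 2 * ‖F D ψ s‖ ^ 2 ≤
      C4 * X ^ 2 * ((C2 * x ^ 2) ^ 2 * (C3 * T ^ k3 * X ^ 2) ^ 2) := by
    intro D hD
    obtain ⟨_, hDX, hIQ, hL⟩ := hF D hD
    have hD1 : (1 : ℝ) ≤ (D : ℝ) := by exact_mod_cast hIQ.pos
    have hb : ∀ ψ ∈ (Finset.univ : Finset (CC (K D))), ‖Sp ψ x‖ ^ 2 * ‖F D ψ s‖ ^ 2 ≤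
        (C2 * x ^ 2) ^ 2 * (C3 * T ^ k3 * X ^ 2) ^ 2 := by
      intro ψ _
      have a1 := (h2 (K D) D hIQ ψ).2 x hx
      have a2 := h3 (K D) D hIQ ψ (F D ψ) (hL ψ) s hs
      have a3 : C3 * T ^ k3 * (D : ℝ) ^ 2 ≤ C3 * T ^ k3 * X ^ 2 := by gcongr
      have a4 : ‖F D ψ s‖ ≤ C3 * T ^ k3 * X ^ 2 := le_trans a2 a3
      gcongr
    have hsum := Finset.sum_le_card_nsmul _ _ _ hb
    rw [nsmul_eq_mul, Finset.card_univ] at hsum
    refine le_trans hsum ?_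
    apply mul_le_mul_of_nonneg_right _ (by positivity)
    refine le_trans (h4 (K D) D hIQ).2 ?_
    apply mul_le_mul_of_nonneg_left _ hC4.le
    calc (D : ℝ) ^ (1 / 2 + (1 : ℝ)) ≤ X ^ (1 / 2 + (1 : ℝ)) :=
          Real.rpow_le_rpow (by linarith) hDX (by norm_num)
      _ ≤ X ^ ((2 : ℕ) : ℝ) := by
          apply Real.rpow_le_rpow_of_exponent_le hX
          norm_num
      _ = X ^ 2 := Real.rpow_natCast X 2
  have hsum2 := Finset.sum_le_card_nsmul S _ _ hterm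
  rw [nsmul_eq_mul] at hsum2
  refine le_trans hsum2 ?_
  calc (S.card : ℝ) * (C4 * X ^ 2 * ((C2 * x ^ 2) ^ 2 * (C3 * T ^ k3 * X ^ 2) ^ 2))
      ≤ X * (C4 * X ^ 2 * ((C2 * x ^ 2) ^ 2 * (C3 * T ^ k3 * X ^ 2) ^ 2)) := by
        apply mul_le_mul_of_nonneg_right hcard (by positivity)
    _ = C4 * C2 ^ 2 * C3 ^ 2 * T ^ (2 * k3) * X ^ 7 * x ^ 4 := by
        rw [mul_comm 2 k3, pow_mul]
        ring

theorem pf_MOT (hMOS : T_MOS) (hSPT : T_SPT) (hTRB : T_TRB) (hHBD : T_HBD) : T_MOT := by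
  intro ε hε
  obtain ⟨κ, hκ0, hκ1, δ, hδ0, hδ1, C1, k1, hC1, h1⟩ := hMOS ε hε
  obtain ⟨C2, hC2, h2⟩ := hSPT
  obtain ⟨C3, k3, hC3, h3⟩ := hTRB
  obtain ⟨C4, hC4, h4⟩ := hHBD 1 one_pos
  refine ⟨κ, hκ0, hκ1, ?_⟩
  intro c hc
  set B := ⌈36 / δ⌉₊ with hB
  have hBd : 36 / δ ≤ (B : ℝ) := Nat.le_ceil _
  set A := C4 * C2 ^ 2 * C3 ^ 2 with hA
  have hA0 : 0 < A := by positivity
  have hf : (0 : ℝ) < (Nat.factorial B : ℝ) := by exact_mod_cast Nat.factorial_pos B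
  refine ⟨C1 + A * ((Nat.factorial B : ℝ) / c ^ B), k1 + (2 * k3 + B), by positivity, ?_⟩
  intro s X x K _ _ S F hs hX hx hF
  set T := 1 + |s.im| with hT
  have hT1 : 1 ≤ T := by
    have := abs_nonneg s.im
    linarith
  have hX0 : 0 < X := by linarith
  have hx0 : 0 < x := by linarith
  set E := X ^ (3 / 2 + ε) * x ^ (1 + ε) with hE
  have hE1 : 1 ≤ E := by
    have a1 : 1 ≤ X ^ (3 / 2 + ε) := Real.one_le_rpow hX (by linarith)
    have a2 : 1 ≤ x ^ (1 + ε) := Real.one_le_rpow hx (by linarith)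
    nlinarith
  have hnn : 0 ≤ ∑ D ∈ S, ∑ ψ : CC (K D), ‖Sp ψ x‖ ^ 2 * ‖F D ψ s‖ ^ 2 :=
    Finset.sum_nonneg (fun D _ => Finset.sum_nonneg (fun ψ _ => by positivity))
  have hfin : (C1 + A * ((Nat.factorial B : ℝ) / c ^ B)) * T ^ (k1 + (2 * k3 + B)) *
      X ^ (3 / 2 + ε) * x ^ (1 + ε) =
      C1 * T ^ (k1 + (2 * k3 + B)) * E +
      A * ((Nat.factorial B : ℝ) / c ^ B) * T ^ (k1 + (2 * k3 + B)) * E := by
    rw [hE]
    ring
  rw [hfin]
  by_cases hcase : x ≤ X ^ ((1 + δ) / 2)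
  · have b1 := h1 s X x K S F hs hX hx hcase hF
    have b2 : Real.exp (-(c * x / (Real.sqrt X * T))) ≤ 1 := by
      rw [Real.exp_le_one_iff]
      have : 0 ≤ c * x / (Real.sqrt X * T) := by positivity
      linarith
    calc (∑ D ∈ S, ∑ ψ : CC (K D), ‖Sp ψ x‖ ^ 2 * ‖F D ψ s‖ ^ 2) *
          Real.exp (-(c * x / (Real.sqrt X * T)))
        ≤ (∑ D ∈ S, ∑ ψ : CC (K D), ‖Sp ψ x‖ ^ 2 * ‖F D ψ s‖ ^ 2) * 1 := by
          apply mul_le_mul_of_nonneg_left b2 hnn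
      _ ≤ C1 * T ^ k1 * X ^ (3 / 2 + ε) * x ^ (1 + ε) := by
          rw [mul_one]
          exact b1
      _ = C1 * T ^ k1 * E := by
          rw [hE]
          ring
      _ ≤ C1 * T ^ (k1 + (2 * k3 + B)) * E := by
          have : T ^ k1 ≤ T ^ (k1 + (2 * k3 + B)) := pow_le_pow_right₀ hT1 (by omega)
          gcongr
      _ ≤ _ := by
          have : 0 ≤ A * ((Nat.factorial B : ℝ) / c ^ B) * T ^ (k1 + (2 * k3 + B)) * E := by
            positivity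
          linarith
  · have hxX : X ^ ((1 + δ) / 2) < x := not_le.mp hcase
    obtain ⟨hXx, hexp⟩ := exp_small δ c T X x hδ0 hδ1 hc hT1 hX hx hxX B hBd
    have b3 := triv C2 C3 C4 k3 hC2 hC3 hC4 h2 h3 h4 s (le_trans hs hκ1) X x K S F hX hx hF
    have b4 : C4 * C2 ^ 2 * C3 ^ 2 * T ^ (2 * k3) * X ^ 7 * x ^ 4 ≤ A * T ^ (2 * k3) * x ^ 18 := by
      have : X ^ 7 ≤ (x ^ 2) ^ 7 := by gcongr
      calc C4 * C2 ^ 2 * C3 ^ 2 * T ^ (2 * k3) * X ^ 7 * x ^ 4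
          = A * T ^ (2 * k3) * X ^ 7 * x ^ 4 := by rw [hA]
        _ ≤ A * T ^ (2 * k3) * (x ^ 2) ^ 7 * x ^ 4 := by gcongr
        _ = A * T ^ (2 * k3) * x ^ 18 := by ring
    calc (∑ D ∈ S, ∑ ψ : CC (K D), ‖Sp ψ x‖ ^ 2 * ‖F D ψ s‖ ^ 2) *
          Real.exp (-(c * x / (Real.sqrt X * T)))
        ≤ (A * T ^ (2 * k3) * x ^ 18) * Real.exp (-(c * x / (Real.sqrt X * T))) := by
          apply mul_le_mul_of_nonneg_right (le_trans b3 b4) (Real.exp_pos _).le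
      _ = A * T ^ (2 * k3) * (x ^ 18 * Real.exp (-(c * x / (Real.sqrt X * T)))) := by ring
      _ ≤ A * T ^ (2 * k3) * ((Nat.factorial B : ℝ) / c ^ B * T ^ B) := by
          apply mul_le_mul_of_nonneg_left hexp (by positivity)
      _ = A * ((Nat.factorial B : ℝ) / c ^ B) * T ^ (2 * k3 + B) * 1 := by
          rw [pow_add]
          ring
      _ ≤ A * ((Nat.factorial B : ℝ) / c ^ B) * T ^ (k1 + (2 * k3 + B)) * E := by
          have : T ^ (2 * k3 + B) ≤ T ^ (k1 + (2 * k3 + B)) := pow_le_pow_right₀ hT1 (by omega)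
          gcongr
      _ ≤ _ := by
          have : 0 ≤ C1 * T ^ (k1 + (2 * k3 + B)) * E := by positivity
          linarith

end Pool.Agent.H83.FM.MOTX

namespace Pool.Agent.H83.FM

theorem pf_MOT (hMOS : T_MOS) (hSPT : T_SPT) (hTRB : T_TRB) (hHBD : T_HBD) : T_MOT :=
  MOTX.pf_MOT hMOS hSPT hTRB hHBD

end Pool.Agent.H83.FM
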